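import Mathlib

/-!
Strong odd colourings of hypergraphs: the strong odd chromatic number is unbounded already on
hypergraphs of maximum degree at most `4`.

The vertices are the pairs `i < j` from an `n`-set; for every `i` the hyperedges are
`L i` (pairs with smaller element `i`), `U i` (pairs with larger element `i`) and `S i = L i ∪ U i`.
A colour that occurs in both `L i` and `U i` would occur an even, nonzero number of times in `S i`.
-/

namespace Pool.Agent.Results.MP_368cee_co.Unbounded

open Finset

section defs

variable {V : Type} [DecidableEq V]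

/-- The degree of the vertex `v` in the hypergraph with hyperedge set `E`. -/
def degree (E : Finset (Finset V)) (v : V) : ℕ := (E.filter (fun e => v ∈ e)).card

/-- `φ` is a strong odd colouring of the hypergraph with hyperedge set `E`: every colour occurs
on every hyperedge either not at all or an odd number of times. -/
def StrongOdd (E : Finset (Finset V)) {t : ℕ} (φ : V → Fin t) : Prop :=
  ∀ e ∈ E, ∀ i : Fin t, (e.filter (fun v => φ v = i)).card = 0 ∨
    Odd (e.filter (fun v => φ v = i)).card

/-- The strong odd chromatic number: the least number of colours of a strong odd colouring. -/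
noncomputable def chiSO (E : Finset (Finset V)) : ℕ :=
  sInf {t | ∃ φ : V → Fin t, StrongOdd E φ}

end defs

/-- A strong odd colouring always exists, so `chiSO` is attained. -/
lemma exists_colouring {V : Type} [Fintype V] [DecidableEq V] (E : Finset (Finset V)) :
    ∃ φ : V → Fin (chiSO E), StrongOdd E φ := by
  have hne : {t | ∃ φ : V → Fin t, StrongOdd E φ}.Nonempty := by
    refine ⟨Fintype.card V, Fintype.equivFin V, ?_⟩
    intro e _ i
    have h1 : (e.filter (fun v => (Fintype.equivFin V) v = i)).card ≤ 1 := by
      rw [Finset.card_le_one]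
      intro a ha b hb
      rw [Finset.mem_filter] at ha hb
      exact (Fintype.equivFin V).injective (ha.2.trans hb.2.symm)
    rcases Nat.le_one_iff_eq_zero_or_eq_one.mp h1 with h | h
    · exact Or.inl h
    · right; rw [h]; exact odd_one
  exact Nat.sInf_mem hne

/-- The vertex set: pairs `i < j`. -/
abbrev Pr (n : ℕ) : Type := {p : Fin n × Fin n // p.1 < p.2}

def L {n : ℕ} (i : Fin n) : Finset (Pr n) := univ.filter (fun p => p.1.1 = i)
def U {n : ℕ} (i : Fin n) : Finset (Pr n) := univ.filter (fun p => p.1.2 = i)
def S {n : ℕ} (i : Fin n) : Finset (Pr n) := L i ∪ U i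

def Ed (n : ℕ) : Finset (Finset (Pr n)) :=
  (univ.image L ∪ univ.image U) ∪ univ.image S

lemma mem_L {n : ℕ} (i : Fin n) (p : Pr n) : p ∈ L i ↔ p.1.1 = i := by simp [L]
lemma mem_U {n : ℕ} (i : Fin n) (p : Pr n) : p ∈ U i ↔ p.1.2 = i := by simp [U]

lemma degree_le (n : ℕ) (v : Pr n) : degree (Ed n) v ≤ 4 := by
  unfold degree
  have hsub : (Ed n).filter (fun e => v ∈ e) ⊆ {L v.1.1, S v.1.1, U v.1.2, S v.1.2} := by
    intro e he
    rw [Finset.mem_filter] at he
    obtain ⟨he, hv⟩ := he
    simp only [Ed, Finset.mem_union, Finset.mem_image, Finset.mem_univ, true_and] at he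
    simp only [Finset.mem_insert, Finset.mem_singleton]
    rcases he with (⟨i, rfl⟩ | ⟨i, rfl⟩) | ⟨i, rfl⟩
    · rw [mem_L] at hv
      left; rw [hv]
    · rw [mem_U] at hv
      right; right; left; rw [hv]
    · rw [S, Finset.mem_union, mem_L, mem_U] at hv
      rcases hv with hv | hv
      · right; left; rw [hv]
      · right; right; right; rw [hv]
  calc _ ≤ _ := Finset.card_le_card hsub
    _ ≤ 4 := Finset.card_le_four

lemma key {n t : ℕ} (φ : Pr n → Fin t) (h : StrongOdd (Ed n) φ) : n ≤ 2 ^ t := by
  classical
  let P : Fin n → Finset (Fin t) := fun i => univ.filter (fun x => ∃ p ∈ L i, φ p = x)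
  have hlt : ∀ i j : Fin n, i < j → P i ≠ P j := by
    intro i j hij heq
    let p : Pr n := ⟨(i, j), hij⟩
    have h1 : φ p ∈ P i := by
      simp only [P, Finset.mem_filter, Finset.mem_univ, true_and]
      exact ⟨p, (mem_L i p).2 rfl, rfl⟩
    rw [heq] at h1
    simp only [P, Finset.mem_filter, Finset.mem_univ, true_and] at h1
    obtain ⟨q, hq, hqp⟩ := h1
    have hL := h (L j) (by simp [Ed]) (φ p)
    have hU := h (U j) (by simp [Ed]) (φ p)
    have hS := h (S j) (by simp [Ed]) (φ p)
    have hdisj : Disjoint ((L j).filter (fun v => φ v = φ p))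
        ((U j).filter (fun v => φ v = φ p)) := by
      rw [Finset.disjoint_left]
      intro a ha hb
      rw [Finset.mem_filter, mem_L] at ha
      rw [Finset.mem_filter, mem_U] at hb
      have := a.2
      rw [ha.1, hb.1] at this
      exact lt_irrefl _ this
    have hcard : ((S j).filter (fun v => φ v = φ p)).card =
        ((L j).filter (fun v => φ v = φ p)).card + ((U j).filter (fun v => φ v = φ p)).card := by
      rw [S, Finset.filter_union, Finset.card_union_of_disjoint hdisj]
    have hLpos : 0 < ((L j).filter (fun v => φ v = φ p)).card :=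
      Finset.card_pos.2 ⟨q, Finset.mem_filter.2 ⟨hq, hqp⟩⟩
    have hUpos : 0 < ((U j).filter (fun v => φ v = φ p)).card :=
      Finset.card_pos.2 ⟨p, Finset.mem_filter.2 ⟨(mem_U j p).2 rfl, rfl⟩⟩
    rw [hcard] at hS
    have hLo : Odd ((L j).filter (fun v => φ v = φ p)).card := by
      rcases hL with h0 | h0
      · omega
      · exact h0
    have hUo : Odd ((U j).filter (fun v => φ v = φ p)).card := by
      rcases hU with h0 | h0
      · omega
      · exact h0
    rcases hS with h0 | h0
    · omega
    · have := hLo.add_odd hUo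
      exact (Nat.not_even_iff_odd.2 h0) this
  have hinj : Function.Injective P := by
    intro i j hij
    rcases lt_trichotomy i j with h1 | h1 | h1
    · exact absurd hij (hlt i j h1)
    · exact h1
    · exact absurd hij.symm (hlt j i h1)
  have := Fintype.card_le_of_injective P hinj
  simpa using this

/-- For every `c` there is a finite hypergraph of maximum degree at most `4` whose strong odd
chromatic number exceeds `c`; in particular no constant `c(Δ)` exists for `Δ = 4`. -/
theorem result :
    (∀ c : ℕ, ∃ (V : Type) (_ : Fintype V) (_ : DecidableEq V) (E : Finset (Finset V)),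
      (∀ v, degree E v ≤ 4) ∧ c < chiSO E) ∧
    ¬ (∀ D : ℕ, 1 ≤ D → ∃ c : ℕ, ∀ (V : Type) (_ : Fintype V) (_ : DecidableEq V)
      (E : Finset (Finset V)), (∀ v, degree E v ≤ D) → chiSO E ≤ c) := by
  have main : ∀ c : ℕ, ∃ (V : Type) (_ : Fintype V) (_ : DecidableEq V) (E : Finset (Finset V)),
      (∀ v, degree E v ≤ 4) ∧ c < chiSO E := by
    intro c
    refine ⟨Pr (2 ^ c + 1), inferInstance, inferInstance, Ed (2 ^ c + 1), degree_le _, ?_⟩
    by_contra hc
    push Not at hc
    obtain ⟨φ, hφ⟩ := exists_colouring (Ed (2 ^ c + 1))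
    have h1 := key φ hφ
    have h2 : 2 ^ chiSO (Ed (2 ^ c + 1)) ≤ 2 ^ c := Nat.pow_le_pow_right (by norm_num) hc
    omega
  refine ⟨main, ?_⟩
  intro hall
  obtain ⟨c, hc⟩ := hall 4 (by norm_num)
  obtain ⟨V, i1, i2, E, hE, hlt⟩ := main c
  exact absurd (hc V i1 i2 E hE) (not_le.2 hlt)

end Pool.Agent.Results.MP_368cee_co.Unbounded
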